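import Pool.Agent.helper22.GS.Spec

/-!
# Project gs, module Q5 (helper49)
-/

set_option autoImplicit false

namespace Pool.Agent.GS

open Module

theorem Q5_exists {F : Type} [Field F] [Finite F] (h5 : 5 ≤ Nat.card F)
    (p : Polynomial F) (hp : p ≠ 0) (hd : p.natDegree ≤ 4) : ∃ t, p.eval t ≠ 0 := by
  classical
  haveI := Fintype.ofFinite F
  by_contra hcon
  push Not at hcon
  apply hp
  apply Polynomial.eq_zero_of_natDegree_lt_card_of_eval_eq_zero' p Finset.univ
    (fun i _ => hcon i)
  rw [Finset.card_univ, ← Nat.card_eq_fintype_card]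
  omega

theorem Q5 (hUN : UN_stmt) (hCM : CM_stmt) : Q5_stmt := by
  intro F K _ _ _ _ _ hchar h5 hrk α σ δ hα hσ hδ
  classical
  haveI hFfin : Finite F :=
    Finite.of_injective (algebraMap F K) (algebraMap F K).injective
  have h2 : (2 : F) ≠ 0 := by
    intro h
    apply hchar
    have h1 : ringChar F ∣ 2 := (ringChar.spec F 2).mp (by exact_mod_cast h)
    have h3 : ringChar F ≠ 1 := by
      intro h4
      have := ringChar.of_eq h4
      haveI := this
      exact CharP.false_of_nontrivial_of_char_one (R := F)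
    exact ((Nat.dvd_prime Nat.prime_two).mp h1).resolve_left h3
  have hsym : Sym (bf F K α) := by
    constructor
    · intro x y
      rw [bf_apply, bf_apply]
      congr 1
      ring
    · intro x hx
      haveI : Algebra.IsSeparable F K := inferInstance
      have hnd := traceForm_nondegenerate F K
      have h1 : α⁻¹ * x = 0 := by
        apply hnd.1
        intro y
        rw [Algebra.traceForm_apply]
        exact hx y
      rcases mul_eq_zero.mp h1 with h | h
      · exact absurd h (inv_ne_zero hα)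
      · exact h
  by_contra hcon
  push Not at hcon
  -- the form `b₂`
  set Q2 : K → F := fun u => Algebra.trace F K (σ * α⁻¹ * u ^ 2) with hQ2
  set b2 : K → K → F := fun u v => Algebra.trace F K (σ * α⁻¹ * u * v) with hb2
  set b1 : K → K → F := fun u v => bf F K α u v with hb1
  have hb1s : ∀ x y, b1 x y = b1 y x := hsym.symm
  have hb1add : ∀ (a c : F) (x y : K), b1 (a • x + c • y) (a • x + c • y) =
      a ^ 2 * b1 x x + 2 * a * c * b1 x y + c ^ 2 * b1 y y := by
    intro a c x y
    show bf F K α (a • x + c • y) (a • x + c • y) = _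
    simp only [map_add, LinearMap.add_apply, map_smul, LinearMap.smul_apply, smul_eq_mul]
    have := hb1s y x
    show _ = a ^ 2 * bf F K α x x + 2 * a * c * bf F K α x y + c ^ 2 * bf F K α y y
    have h3 : bf F K α y x = bf F K α x y := this
    rw [h3]
    ring
  have hQ2add : ∀ (a c : F) (x y : K), Q2 (a • x + c • y) =
      a ^ 2 * Q2 x + 2 * a * c * b2 x y + c ^ 2 * Q2 y := by
    intro a c x y
    show Algebra.trace F K (σ * α⁻¹ * (a • x + c • y) ^ 2) =
      a ^ 2 * Algebra.trace F K (σ * α⁻¹ * x ^ 2) + 2 * a * c *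
        Algebra.trace F K (σ * α⁻¹ * x * y) + c ^ 2 * Algebra.trace F K (σ * α⁻¹ * y ^ 2)
    have e : σ * α⁻¹ * (a • x + c • y) ^ 2 = (a ^ 2) • (σ * α⁻¹ * x ^ 2) +
        (2 * a * c) • (σ * α⁻¹ * x * y) + (c ^ 2) • (σ * α⁻¹ * y ^ 2) := by
      simp only [Algebra.smul_def, map_mul, map_pow, map_ofNat]
      ring
    rw [e, map_add, map_add, map_smul, map_smul, map_smul]
    simp only [smul_eq_mul]
  obtain ⟨u₁, hu₁⟩ := hUN (bf F K α) hchar hsym (by omega) δ hδ
  have hu₁' : b1 u₁ u₁ = δ := hu₁
  have hQu₁ : Q2 u₁ = 0 := hcon u₁ hu₁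
  obtain ⟨W, hW, hWsym, hWrk, -⟩ := hCM (bf F K α) hsym (finBasis F K) u₁ (by rw [hu₁]; exact hδ)
  have hW2 : finrank F W = 2 := by omega
  -- Step 1
  have step1 : ∀ g : K, g ∈ W → b1 g g ≠ 0 → Q2 g = 0 := by
    intro g hg hc
    have hug : b1 u₁ g = 0 := (hW g).mp hg
    obtain ⟨t, ht⟩ := Q5_exists h5
      (Polynomial.X * (Polynomial.C δ * Polynomial.X ^ 2 + Polynomial.C (b1 g g))) (by
        apply mul_ne_zero Polynomial.X_ne_zero
        intro h
        have := congrArg (fun p => Polynomial.coeff p 0) h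
        simp at this
        exact hc this) (by
        compute_degree!)
    have ht' : t * (δ * t ^ 2 + b1 g g) ≠ 0 := by
      simpa using ht
    have ht0 : t ≠ 0 := left_ne_zero_of_mul ht'
    have hD : δ * t ^ 2 + b1 g g ≠ 0 := right_ne_zero_of_mul ht'
    set Y : F := 2 * δ * t / (δ * t ^ 2 + b1 g g) with hY
    have hY0 : Y ≠ 0 := by
      rw [hY]
      exact div_ne_zero (mul_ne_zero (mul_ne_zero h2 hδ) ht0) hD
    have hYD : Y * (δ * t ^ 2 + b1 g g) = 2 * δ * t := by
      rw [hY]; field_simp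
    set X : F := 1 - t * Y with hX
    have hXY : X ^ 2 * δ + Y ^ 2 * b1 g g = δ := by
      rw [hX]
      linear_combination Y * hYD
    have e1 : Q2 (X • u₁ + Y • g) = 0 := by
      apply hcon
      have := hb1add X Y u₁ g
      rw [hug, hu₁'] at this
      show b1 (X • u₁ + Y • g) (X • u₁ + Y • g) = δ
      rw [this]
      linear_combination hXY
    have e2 : Q2 (X • u₁ + (-Y) • g) = 0 := by
      apply hcon
      have := hb1add X (-Y) u₁ g
      rw [hug, hu₁'] at this
      show b1 (X • u₁ + (-Y) • g) (X • u₁ + (-Y) • g) = δ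
      rw [this]
      linear_combination hXY
    rw [hQ2add, hQu₁] at e1 e2
    have e3 : 2 * Y ^ 2 * Q2 g = 0 := by linear_combination e1 + e2
    rcases mul_eq_zero.mp e3 with h | h
    · exact absurd h (mul_ne_zero h2 (pow_ne_zero 2 hY0))
    · exact h
  -- Step 2
  obtain ⟨h₀, hh₀⟩ := hUN ((bf F K α).domRestrict₁₂ W W) hchar hWsym (by omega) 1 one_ne_zero
  have hh₀' : b1 (h₀ : K) h₀ = 1 := hh₀
  have hQh : Q2 (h₀ : K) = 0 := step1 h₀ h₀.2 (by rw [hh₀']; exact one_ne_zero)
  have step2 : ∀ g : K, g ∈ W → Q2 g = 0 := by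
    intro g hg
    by_cases hc : b1 g g = 0
    · have key : ∀ t : F, t * (2 * b1 g h₀ + t) ≠ 0 → Q2 g + 2 * t * b2 g h₀ = 0 := by
        intro t ht
        have e1 := hb1add 1 t g h₀
        rw [hc, hh₀'] at e1
        have e2 : b1 ((1 : F) • g + t • (h₀ : K)) ((1 : F) • g + t • (h₀ : K)) ≠ 0 := by
          rw [e1]
          intro h
          apply ht
          linear_combination h
        have e3 := step1 _ (W.add_mem (W.smul_mem 1 hg) (W.smul_mem t h₀.2)) e2
        rw [hQ2add, hQh] at e3
        linear_combination e3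
      have hp1 : (Polynomial.X * (Polynomial.C (2 * b1 g h₀) + Polynomial.X) : Polynomial F) ≠
          0 := by
        apply mul_ne_zero Polynomial.X_ne_zero
        intro h
        have := congrArg (fun p => Polynomial.coeff p 1) h
        simp at this
      obtain ⟨t₁, ht₁⟩ := Q5_exists h5 _ hp1 (by compute_degree!)
      obtain ⟨t₂, ht₂⟩ := Q5_exists h5
        ((Polynomial.X - Polynomial.C t₁) *
          (Polynomial.X * (Polynomial.C (2 * b1 g h₀) + Polynomial.X)))
        (mul_ne_zero (Polynomial.X_sub_C_ne_zero t₁) hp1) (by compute_degree!)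
      have ht₁' : t₁ * (2 * b1 g h₀ + t₁) ≠ 0 := by simpa using ht₁
      have ht₂' : (t₂ - t₁) * (t₂ * (2 * b1 g h₀ + t₂)) ≠ 0 := by simpa using ht₂
      have k1 := key t₁ ht₁'
      have k2 := key t₂ (right_ne_zero_of_mul ht₂')
      have h12 : t₂ - t₁ ≠ 0 := left_ne_zero_of_mul ht₂'
      have k3 : 2 * (t₂ - t₁) * b2 g h₀ = 0 := by linear_combination k2 - k1
      have k4 : b2 g h₀ = 0 := by
        rcases mul_eq_zero.mp k3 with h | h
        · exact absurd h (mul_ne_zero h2 h12)
        · exact h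
      rw [k4] at k1
      linear_combination k1
    · exact step1 g hg hc
  -- polarization
  have step3 : ∀ g h : K, g ∈ W → h ∈ W → b2 g h = 0 := by
    intro g h hg hh
    have e := hQ2add 1 1 g h
    rw [step2 g hg, step2 h hh,
      step2 _ (W.add_mem (W.smul_mem 1 hg) (W.smul_mem 1 hh))] at e
    have e3 : 2 * b2 g h = 0 := by linear_combination -e
    rcases mul_eq_zero.mp e3 with h' | h'
    · exact absurd h' h2
    · exact h'
  -- the kernel of `g ↦ b₁(u₁, σ g)` on `W`
  let f : W →ₗ[F] F := ((bf F K α) u₁).comp ((LinearMap.mulLeft F σ).comp W.subtype)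
  have hker : LinearMap.ker f ≠ ⊥ := by
    apply LinearMap.ker_ne_bot_of_finrank_lt
    rw [hW2, finrank_self]
    norm_num
  obtain ⟨g, hgk, hg0⟩ := Submodule.exists_mem_ne_zero_of_ne_bot hker
  have hfg : bf F K α u₁ (σ * (g : K)) = 0 := hgk
  have hmem : σ * (g : K) ∈ W := (hW _).mpr hfg
  have hz : (⟨σ * (g : K), hmem⟩ : W) = 0 := by
    apply hWsym.nd
    intro y
    show bf F K α (σ * (g : K)) (y : K) = 0
    have := step3 g y g.2 y.2
    rw [bf_apply]
    have e : α⁻¹ * (σ * (g : K)) * (y : K) = σ * α⁻¹ * g * y := by ring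
    rw [e]
    exact this
  have hz' : σ * (g : K) = 0 := congrArg Subtype.val hz
  rcases mul_eq_zero.mp hz' with h | h
  · exact hσ h
  · exact hg0 (Subtype.ext h)

end Pool.Agent.GS
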